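import Mathlib
import Pool.Agent.U514.TG.Stm

/-!
# Project TG, package TILE: finitely many grids of tiles are a net with wires of length one
-/

set_option autoImplicit false

namespace Pool.Agent.U83.TG.TILE

open Finset
open Pool.Agent.U514.TG
open Pool.Agent.U514.SP (Opd Net dst)

/-- The names of the 20 gates of a tile. -/
inductive Nm : Type
  | X0 | Y0 | X1 | Y1 | S | NX | NY | YY | XX | AX | CY | CZ | XO | X6 | BY | DX | DZ | YO | RE | Y6
  deriving DecidableEq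

namespace Nm

instance : Fintype Nm :=
  ⟨⟨[X0, Y0, X1, Y1, S, NX, NY, YY, XX, AX, CY, CZ, XO, X6, BY, DX, DZ, YO, RE, Y6], by decide⟩,
    by intro x; cases x <;> decide⟩

def num : Nm → ℕ
  | X0 => 0 | Y0 => 1 | X1 => 2 | Y1 => 3 | S => 4 | NX => 5 | NY => 6 | YY => 7 | XX => 8
  | AX => 9 | CY => 10 | CZ => 11 | XO => 12 | X6 => 13 | BY => 14 | DX => 15 | DZ => 16
  | YO => 17 | RE => 18 | Y6 => 19

def u : Nm → ℕ
  | X0 => 2 | Y0 => 0 | X1 => 2 | Y1 => 1 | S => 2 | NX => 3 | NY => 1 | YY => 3 | XX => 2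
  | AX => 2 | CY => 1 | CZ => 1 | XO => 2 | X6 => 2 | BY => 4 | DX => 4 | DZ => 5
  | YO => 5 | RE => 6 | Y6 => 6

def v : Nm → ℕ
  | X0 => 0 | Y0 => 2 | X1 => 1 | Y1 => 2 | S => 2 | NX => 1 | NY => 3 | YY => 2 | XX => 3
  | AX => 4 | CY => 4 | CZ => 5 | XO => 5 | X6 => 6 | BY => 2 | DX => 1 | DZ => 1
  | YO => 2 | RE => 1 | Y6 => 2

theorem u_lt (n : Nm) : n.u < 7 := by cases n <;> decide
theorem v_lt (n : Nm) : n.v < 7 := by cases n <;> decide
theorem num_lt (n : Nm) : n.num < 20 := by cases n <;> decide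
theorem uv_inj : ∀ n m : Nm, n.u = m.u → n.v = m.v → n = m := by decide
theorem card : Fintype.card Nm = 20 := by decide

end Nm

section

variable {F V ι : Type} [Field F]

/-- The gates. -/
abbrev Gt (P : ι → Grid F V) : Type := Σ i : ι, {q : ℕ × ℕ // q ∈ (P i).R} × Nm

/-- The operand of an entry. -/
def leaf {D : Type} (e : V ⊕ F) : Opd F V D :=
  match e with
  | .inl v => .var v
  | .inr c => .const c

theorem leaf_eval {D : Type} (e : V ⊕ F) (f : D → MvPolynomial V F) :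
    (leaf e : Opd F V D).eval f = ent e := by
  cases e <;> rfl

omit [Field F] in
theorem leaf_ne_ref {D : Type} (e : V ⊕ F) (d : D) : (leaf e : Opd F V D) ≠ .ref d := by
  cases e <;> (intro h; cases h)

/-- The values. -/
noncomputable def val (T : Tile F V) (x y : MvPolynomial V F) : Nm → MvPolynomial V F
  | .X0 => x
  | .Y0 => y
  | .X1 => x
  | .Y1 => y
  | .S => x + y
  | .NX => -x
  | .NY => -y
  | .YY => y
  | .XX => x
  | .AX => MvPolynomial.C T.a * x
  | .CY => MvPolynomial.C T.c * y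
  | .CZ => MvPolynomial.C T.c * y
  | .XO => T.outX x y
  | .X6 => T.outX x y
  | .BY => MvPolynomial.C T.b * y
  | .DX => MvPolynomial.C T.d * x
  | .DZ => MvPolynomial.C T.d * x
  | .YO => MvPolynomial.C T.b * y + MvPolynomial.C T.d * x
  | .RE => MvPolynomial.C T.r * ent T.e
  | .Y6 => T.outY x y

/-- First operands. -/
noncomputable def fstO (P : ι → Grid F V) (i : ι) (q : {q : ℕ × ℕ // q ∈ (P i).R}) :
    Nm → Opd F V (Gt P)
  | .X0 => if h : 0 < q.1.2 ∧ (q.1.1, q.1.2 - 1) ∈ (P i).R then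
      .ref ⟨i, ⟨(q.1.1, q.1.2 - 1), h.2⟩, .X6⟩ else .const 0
  | .Y0 => if h : 0 < q.1.1 ∧ (q.1.1 - 1, q.1.2) ∈ (P i).R then
      .ref ⟨i, ⟨(q.1.1 - 1, q.1.2), h.2⟩, .Y6⟩ else .const 0
  | .X1 => .ref ⟨i, q, .X0⟩
  | .Y1 => .ref ⟨i, q, .Y0⟩
  | .S => .ref ⟨i, q, .X1⟩
  | .NX => .const (-1)
  | .NY => .const (-1)
  | .YY => .ref ⟨i, q, .S⟩
  | .XX => .ref ⟨i, q, .S⟩
  | .AX => .const ((P i).tile q.1).a
  | .CY => .const (-((P i).tile q.1).c)
  | .CZ => .ref ⟨i, q, .CY⟩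
  | .XO => .ref ⟨i, q, .AX⟩
  | .X6 => .ref ⟨i, q, .XO⟩
  | .BY => .const ((P i).tile q.1).b
  | .DX => .const (-((P i).tile q.1).d)
  | .DZ => .ref ⟨i, q, .DX⟩
  | .YO => .ref ⟨i, q, .BY⟩
  | .RE => .const ((P i).tile q.1).r
  | .Y6 => .ref ⟨i, q, .YO⟩

/-- Second operands. -/
noncomputable def sndO (P : ι → Grid F V) (i : ι) (q : {q : ℕ × ℕ // q ∈ (P i).R}) :
    Nm → Opd F V (Gt P)
  | .X0 => .const 0
  | .Y0 => .const 0
  | .X1 => .const 0
  | .Y1 => .const 0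
  | .S => .ref ⟨i, q, .Y1⟩
  | .NX => .ref ⟨i, q, .X1⟩
  | .NY => .ref ⟨i, q, .Y1⟩
  | .YY => .ref ⟨i, q, .NX⟩
  | .XX => .ref ⟨i, q, .NY⟩
  | .AX => .ref ⟨i, q, .XX⟩
  | .CY => .ref ⟨i, q, .NY⟩
  | .CZ => .const 0
  | .XO => .ref ⟨i, q, .CZ⟩
  | .X6 => .const 0
  | .BY => .ref ⟨i, q, .YY⟩
  | .DX => .ref ⟨i, q, .NX⟩
  | .DZ => .const 0
  | .YO => .ref ⟨i, q, .DZ⟩
  | .RE => leaf ((P i).tile q.1).e
  | .Y6 => .ref ⟨i, q, .RE⟩

/-- Which gates multiply. -/
def mulO (T : Tile F V) : Nm → Bool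
  | .X0 => false
  | .Y0 => false
  | .X1 => false
  | .Y1 => false
  | .S => false
  | .NX => true
  | .NY => true
  | .YY => false
  | .XX => false
  | .AX => true
  | .CY => true
  | .CZ => false
  | .XO => T.mul
  | .X6 => false
  | .BY => true
  | .DX => true
  | .DZ => false
  | .YO => false
  | .RE => true
  | .Y6 => false

variable [Fintype ι]

/-- The net. -/
noncomputable def net (P : ι → Grid F V) (K : ℕ) : Net F V where
  G := Gt P
  inst := inferInstance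
  mul := fun g => mulO ((P g.1).tile g.2.1.1) g.2.2
  fst := fun g => fstO P g.1 g.2.1 g.2.2
  snd := fun g => sndO P g.1 g.2.1 g.2.2
  rank := fun g => 20 * (g.2.1.1.1 + g.2.1.1.2) + g.2.2.num
  pol := fun g => val ((P g.1).tile g.2.1.1) ((P g.1).x g.2.1.1) ((P g.1).y g.2.1.1) g.2.2
  pos := fun g => (((K * (Fintype.equivFin ι g.1).val + 7 * g.2.1.1.1 + g.2.2.u : ℕ) : ℤ),
    ((7 * g.2.1.1.2 + g.2.2.v : ℕ) : ℤ))

theorem ranks_fst (P : ι → Grid F V) (K : ℕ) (g h : (net P K).G)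
    (hh : (net P K).fst g = .ref h) : (net P K).rank h < (net P K).rank g := by
  obtain ⟨i, ⟨⟨c, r⟩, hq⟩, n⟩ := g
  cases n <;> simp only [net, fstO] at hh ⊢ <;>
    first
    | (cases hh; simp only [Nm.num]; omega)
    | cases hh
    | (split_ifs at hh with h0; cases hh; simp only [Nm.num] at h0 ⊢; omega)

theorem ranks_snd (P : ι → Grid F V) (K : ℕ) (g h : (net P K).G)
    (hh : (net P K).snd g = .ref h) : (net P K).rank h < (net P K).rank g := by
  obtain ⟨i, ⟨⟨c, r⟩, hq⟩, n⟩ := g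
  cases n <;> simp only [net, sndO] at hh ⊢ <;>
    first
    | (cases hh; simp only [Nm.num]; omega)
    | cases hh
    | exact absurd hh (leaf_ne_ref _ _)

theorem nn_fst (P : ι → Grid F V) (K : ℕ) (g h : (net P K).G)
    (hh : (net P K).fst g = .ref h) : dst ((net P K).pos h) ((net P K).pos g) = 1 := by
  obtain ⟨i, ⟨⟨c, r⟩, hq⟩, n⟩ := g
  cases n <;> simp only [net, fstO] at hh ⊢ <;>
    first
    | (cases hh; simp only [Nm.u, Nm.v, dst]; omega)
    | cases hh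
    | (split_ifs at hh with h0; cases hh; simp only [Nm.u, Nm.v, dst] at h0 ⊢; omega)

theorem nn_snd (P : ι → Grid F V) (K : ℕ) (g h : (net P K).G)
    (hh : (net P K).snd g = .ref h) : dst ((net P K).pos h) ((net P K).pos g) = 1 := by
  obtain ⟨i, ⟨⟨c, r⟩, hq⟩, n⟩ := g
  cases n <;> simp only [net, sndO] at hh ⊢ <;>
    first
    | (cases hh; simp only [Nm.u, Nm.v, dst]; omega)
    | cases hh
    | exact absurd hh (leaf_ne_ref _ _)

theorem x0 (P : Grid F V) (hP : P.OK) (c r : ℕ) (hq : (c, r) ∈ P.R) :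
    P.x (c, r) = if 0 < r ∧ (c, r - 1) ∈ P.R then
      (P.tile (c, r - 1)).outX (P.x (c, r - 1)) (P.y (c, r - 1)) else 0 := by
  split_ifs with h
  · obtain ⟨h1, h2⟩ := h
    obtain ⟨r, rfl⟩ : ∃ s, r = s + 1 := ⟨r - 1, by omega⟩
    exact hP.x_eq c r h2 hq
  · apply hP.x_zero c r hq
    by_cases h0 : r = 0
    · exact .inl h0
    · exact .inr fun h1 => h ⟨Nat.pos_of_ne_zero h0, h1⟩

theorem y0 (P : Grid F V) (hP : P.OK) (c r : ℕ) (hq : (c, r) ∈ P.R) :
    P.y (c, r) = if 0 < c ∧ (c - 1, r) ∈ P.R then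
      (P.tile (c - 1, r)).outY (P.x (c - 1, r)) (P.y (c - 1, r)) else 0 := by
  split_ifs with h
  · obtain ⟨h1, h2⟩ := h
    obtain ⟨c, rfl⟩ : ∃ s, c = s + 1 := ⟨c - 1, by omega⟩
    exact hP.y_eq c r h2 hq
  · apply hP.y_zero c r hq
    by_cases h0 : c = 0
    · exact .inl h0
    · exact .inr fun h1 => h ⟨Nat.pos_of_ne_zero h0, h1⟩

theorem mul_ok (P : ι → Grid F V) (K : ℕ) (g : (net P K).G)
    (hh : (net P K).mul g = true) : (net P K).pol g =
      ((net P K).fst g).eval (net P K).pol * ((net P K).snd g).eval (net P K).pol := by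
  obtain ⟨i, ⟨⟨c, r⟩, hq⟩, n⟩ := g
  cases n
  case RE =>
    simp only [net, fstO, sndO, leaf_eval]
    rfl
  all_goals simp only [net, mulO, fstO, sndO, Opd.eval, val] at hh ⊢
  all_goals
    first
    | (simp [map_neg, map_one]; done)
    | (simp only [Tile.outX, hh]; simp; done)
    | exact nomatch hh

theorem add_ok (P : ι → Grid F V) (hP : ∀ i, (P i).OK) (K : ℕ) (g : (net P K).G)
    (hh : (net P K).mul g = false) : (net P K).pol g =
      ((net P K).fst g).eval (net P K).pol + ((net P K).snd g).eval (net P K).pol := by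
  obtain ⟨i, ⟨⟨c, r⟩, hq⟩, n⟩ := g
  cases n
  case X0 =>
    simp only [net, fstO, sndO, Opd.eval, val]
    rw [x0 (P i) (hP i) c r hq]
    split_ifs with h
    · simp
    · simp
  case Y0 =>
    simp only [net, fstO, sndO, Opd.eval, val]
    rw [y0 (P i) (hP i) c r hq]
    split_ifs with h
    · simp
    · simp
  case XO =>
    simp only [net, mulO, fstO, sndO, Opd.eval, val] at hh ⊢
    simp [Tile.outX, hh]
  all_goals simp only [net, mulO, fstO, sndO, Opd.eval, val] at hh ⊢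
  all_goals
    first
    | (simp; done)
    | (simp [Tile.outY]; done)
    | exact nomatch hh

theorem inj (P : ι → Grid F V) (K : ℕ) (hK : ∀ i, ∀ q ∈ (P i).R, 7 * q.1 + 7 ≤ K) :
    Function.Injective (net P K).pos := by
  rintro ⟨i, ⟨⟨c, r⟩, hq⟩, n⟩ ⟨j, ⟨⟨d, s⟩, hq'⟩, m⟩ h
  simp only [net, Prod.mk.injEq, Nat.cast_inj] at h
  obtain ⟨h1, h2⟩ := h
  have h3 := hK i _ hq
  have h4 := hK j _ hq'
  simp only at h3 h4
  have un := n.u_lt
  have vn := n.v_lt
  have um := m.u_lt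
  have vm := m.v_lt
  have key : (Fintype.equivFin ι i).val = (Fintype.equivFin ι j).val := by
    have e1 : (K * (Fintype.equivFin ι i).val + 7 * c + n.u) / K = (Fintype.equivFin ι i).val := by
      rw [add_assoc, Nat.mul_add_div (by omega), Nat.div_eq_of_lt (by omega), add_zero]
    have e2 : (K * (Fintype.equivFin ι j).val + 7 * d + m.u) / K = (Fintype.equivFin ι j).val := by
      rw [add_assoc, Nat.mul_add_div (by omega), Nat.div_eq_of_lt (by omega), add_zero]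
    rw [← e1, ← e2, h1]
  have hij : i = j := (Fintype.equivFin ι).injective (Fin.ext key)
  subst hij
  have hc : c = d := by omega
  have hu : n.u = m.u := by omega
  have hr : r = s := by omega
  have hv : n.v = m.v := by omega
  subst hc hr
  have hn := Nm.uv_inj n m hu hv
  subst hn
  rfl

theorem card_le (P : ι → Grid F V) (K : ℕ) :
    Nat.card (net P K).G ≤ 20 * ∑ i, (P i).R.card := by
  have : Nat.card (net P K).G = ∑ i, (P i).R.card * 20 := by
    change Nat.card (Gt P) = _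
    rw [Nat.card_eq_fintype_card, Fintype.card_sigma]
    refine Finset.sum_congr rfl fun i _ => ?_
    rw [Fintype.card_prod, Nm.card, Fintype.card_coe]
  rw [this, ← Finset.sum_mul, mul_comm]

end

theorem t_TILE : Pool.Agent.U514.TG.S_TILE := by
  intro F V ι _ _ P hP
  obtain ⟨K, hK⟩ : ∃ K : ℕ, ∀ i, ∀ q ∈ (P i).R, 7 * q.1 + 7 ≤ K := by
    refine ⟨∑ i, ∑ q ∈ (P i).R, (7 * q.1 + 7), fun i q hq => ?_⟩
    calc 7 * q.1 + 7 ≤ ∑ q ∈ (P i).R, (7 * q.1 + 7) :=
          Finset.single_le_sum (f := fun q : ℕ × ℕ => 7 * q.1 + 7) (fun _ _ => Nat.zero_le _) hq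
      _ ≤ _ := Finset.single_le_sum (f := fun i => ∑ q ∈ (P i).R, (7 * q.1 + 7))
          (fun _ _ => Nat.zero_le _) (Finset.mem_univ i)
  refine ⟨net P K, ⟨ranks_fst P K, ranks_snd P K, mul_ok P K, add_ok P hP K, inj P K hK⟩,
    fun g h hgh => hgh.elim (nn_fst P K g h) (nn_snd P K g h), fun i q hq => ?_, card_le P K⟩
  exact ⟨⟨i, ⟨q, hq⟩, .Y6⟩, rfl⟩

end Pool.Agent.U83.TG.TILE
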